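import Pool.Agent.Helper1.BSX.Stmts

set_option autoImplicit false

namespace Pool.Agent.Helper1.BSX

open Finset

section

variable {C A B U : Type} [Field C] [Field A] [Field B] [Field U] [Algebra C A] [Algebra C B]
  [Algebra A U] [Algebra B U] [Algebra C U] [IsScalarTower C A U] [IsScalarTower C B U]

theorem wx_ld (h : LDj C A B U) (ι : Type) [Fintype ι] (a : ι → A) (b : ι → B)
    (h0 : ∑ i, algebraMap A U (a i) * algebraMap B U (b i) = 0) (φ : B →ₗ[C] C) :
    ∑ i, a i * algebraMap C A (φ (b i)) = 0 := by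
  classical
  set S : Submodule C B := Submodule.span C (Set.range b) with hS
  have : FiniteDimensional C S := FiniteDimensional.span_of_finite C (Set.finite_range b)
  set e := Module.finBasis C S with he
  have hb : ∀ i, b i ∈ S := fun i => Submodule.subset_span ⟨i, rfl⟩
  set c : ι → Fin (Module.finrank C S) → C := fun i j => e.repr ⟨b i, hb i⟩ j with hc
  have hbi : ∀ i, b i = ∑ j, c i j • (e j : B) := by
    intro i
    have := congrArg (Subtype.val) (e.sum_repr ⟨b i, hb i⟩)
    simp only [Submodule.coe_sum, Submodule.coe_smul] at this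
    exact this.symm
  have hli : LinearIndependent C fun j => (e j : B) :=
    e.linearIndependent.map' S.subtype (Submodule.ker_subtype S)
  have hsum : ∑ j, algebraMap A U (∑ i, algebraMap C A (c i j) * a i) * algebraMap B U (e j : B)
      = 0 := by
    rw [← h0]
    have h1 : ∀ i, algebraMap A U (a i) * algebraMap B U (b i)
        = ∑ j, algebraMap A U (algebraMap C A (c i j) * a i) * algebraMap B U (e j : B) := by
      intro i
      conv_lhs => rw [hbi i]
      rw [map_sum, mul_sum]
      refine sum_congr rfl fun j _ => ?_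
      rw [Algebra.smul_def, map_mul, map_mul, ← IsScalarTower.algebraMap_apply C A U,
        ← IsScalarTower.algebraMap_apply C B U]
      ring
    rw [sum_congr rfl fun i _ => h1 i, sum_comm]
    refine sum_congr rfl fun j _ => ?_
    rw [map_sum, sum_mul]
  have hz := h _ _ _ hli hsum
  have h2 : ∀ i, φ (b i) = ∑ j, c i j * φ (e j : B) := by
    intro i
    conv_lhs => rw [hbi i]
    rw [map_sum]
    refine sum_congr rfl fun j _ => ?_
    rw [map_smul, smul_eq_mul]
  have h3 : ∀ i, a i * algebraMap C A (φ (b i))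
      = ∑ j, algebraMap C A (c i j) * a i * algebraMap C A (φ (e j : B)) := by
    intro i
    rw [h2 i, map_sum, mul_sum]
    refine sum_congr rfl fun j _ => ?_
    rw [map_mul]
    ring
  rw [sum_congr rfl fun i _ => h3 i, sum_comm]
  refine sum_eq_zero fun j _ => ?_
  rw [← sum_mul, hz j, zero_mul]

/-- finite sums of products of an element of the maximal ideal and an element of `B` -/
def wx_J (A B U : Type) [Field A] [Field B] [Field U] [Algebra A U] [Algebra B U]
    (W : ValuationSubring A) : Set U :=
  {z | ∃ (ι : Type) (_ : Fintype ι) (a : ι → A) (b : ι → B), (∀ i, W.valuation (a i) < 1) ∧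
    z = ∑ i, algebraMap A U (a i) * algebraMap B U (b i)}

theorem wx_zero (W : ValuationSubring A) : (0 : U) ∈ wx_J A B U W :=
  ⟨Empty, inferInstance, fun i => i.elim, fun i => i.elim, fun i => i.elim, by simp⟩

theorem wx_add (W : ValuationSubring A) {x y : U} (hx : x ∈ wx_J A B U W)
    (hy : y ∈ wx_J A B U W) : x + y ∈ wx_J A B U W := by
  obtain ⟨ι, _, a, b, ha, rfl⟩ := hx
  obtain ⟨κ, _, a', b', ha', rfl⟩ := hy
  refine ⟨ι ⊕ κ, inferInstance, Sum.elim a a', Sum.elim b b', ?_, ?_⟩
  · rintro (i | i)
    · exact ha i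
    · exact ha' i
  · rw [Fintype.sum_sum_type]
    simp

theorem wx_neg (W : ValuationSubring A) {x : U} (hx : x ∈ wx_J A B U W) : -x ∈ wx_J A B U W := by
  obtain ⟨ι, _, a, b, ha, rfl⟩ := hx
  refine ⟨ι, inferInstance, fun i => -a i, b, ?_, ?_⟩
  · intro i
    rw [Valuation.map_neg]
    exact ha i
  · rw [← sum_neg_distrib]
    refine sum_congr rfl fun i _ => ?_
    rw [map_neg, neg_mul]

theorem wx_mulA (W : ValuationSubring A) {x : U} (hx : x ∈ wx_J A B U W) (r : A) (hr : r ∈ W) :
    algebraMap A U r * x ∈ wx_J A B U W := by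
  obtain ⟨ι, _, a, b, ha, rfl⟩ := hx
  refine ⟨ι, inferInstance, fun i => r * a i, b, ?_, ?_⟩
  · intro i
    rw [map_mul]
    have h1 := (W.valuation_le_one_iff r).2 hr
    exact lt_of_le_of_lt (mul_le_of_le_one_left' h1) (ha i)
  · rw [mul_sum]
    refine sum_congr rfl fun i _ => ?_
    rw [map_mul, mul_assoc]

theorem wx_mulB (W : ValuationSubring A) {x : U} (hx : x ∈ wx_J A B U W) (r : B) :
    algebraMap B U r * x ∈ wx_J A B U W := by
  obtain ⟨ι, _, a, b, ha, rfl⟩ := hx
  refine ⟨ι, inferInstance, a, fun i => r * b i, ha, ?_⟩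
  rw [mul_sum]
  refine sum_congr rfl fun i _ => ?_
  rw [map_mul]
  ring

theorem wx_one (h : LDj C A B U) (W : ValuationSubring A) (hW : ResC C A W) :
    (1 : U) ∉ wx_J A B U W := by
  rintro ⟨ι, _, a, b, ha, h1⟩
  obtain ⟨φ, hφ⟩ := LinearMap.exists_leftInverse_of_injective (Algebra.linearMap C B)
    (LinearMap.ker_eq_bot.2 (FaithfulSMul.algebraMap_injective C B))
  have hφ1 : φ 1 = 1 := by
    have := LinearMap.congr_fun hφ 1
    simpa using this
  have h2 := wx_ld h (Option ι) (fun i => i.elim (-1) a) (fun i => i.elim 1 b) (by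
    rw [Fintype.sum_option]
    simp only [Option.elim_none, Option.elim_some]
    rw [← h1]
    simp) φ
  rw [Fintype.sum_option] at h2
  simp only [Option.elim_none, Option.elim_some] at h2
  rw [hφ1, map_one] at h2
  have h3 : (1 : A) = ∑ i, a i * algebraMap C A (φ (b i)) := by
    linear_combination -h2
  have h4 : W.valuation (∑ i, a i * algebraMap C A (φ (b i))) < 1 := by
    refine Valuation.map_sum_lt _ one_ne_zero fun i _ => ?_
    rw [map_mul, mul_comm]
    exact lt_of_le_of_lt (mul_le_of_le_one_left' ((W.valuation_le_one_iff _).2 (hW.1 _))) (ha i)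
  rw [← h3, map_one] at h4
  exact lt_irrefl _ h4

end

theorem st_WX : ST_WX := by
  intro C A B U _ _ _ _ _ _ _ _ _ _ _ hL W hW
  set R0 : Subring U := Subring.closure ((algebraMap A U '' (W : Set A)) ∪
    Set.range (algebraMap B U)) with hR0
  have hmul : ∀ r ∈ R0, ∀ x ∈ wx_J A B U W, r * x ∈ wx_J A B U W := by
    intro r hr
    induction hr using Subring.closure_induction with
    | mem y hy =>
      intro x hx
      rcases hy with ⟨a, ha, rfl⟩ | ⟨b, rfl⟩
      · exact wx_mulA W hx a ha
      · exact wx_mulB W hx b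
    | zero =>
      intro x hx
      rw [zero_mul]
      exact wx_zero W
    | one =>
      intro x hx
      rw [one_mul]
      exact hx
    | add y z _ _ h1 h2 =>
      intro x hx
      rw [add_mul]
      exact wx_add W (h1 x hx) (h2 x hx)
    | neg y _ h1 =>
      intro x hx
      rw [neg_mul]
      exact wx_neg W (h1 x hx)
    | mul y z _ _ h1 h2 =>
      intro x hx
      rw [mul_assoc]
      exact h1 _ (h2 x hx)
  let I : Ideal R0 :=
    { carrier := {z | (z : U) ∈ wx_J A B U W}
      add_mem' := fun {x y} hx hy => wx_add W hx hy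
      zero_mem' := wx_zero W
      smul_mem' := fun c x hx => hmul c.1 c.2 x.1 hx }
  have hI : I ≠ ⊤ := by
    intro h
    have : (1 : R0) ∈ I := by
      rw [h]
      trivial
    exact wx_one hL W hW this
  obtain ⟨W', hW1, hW2⟩ := Ideal.image_subset_nonunits_valuationSubring I hI
  refine ⟨W', ?_, ?_⟩
  · intro a
    constructor
    · intro ha
      by_contra hna
      have ha0 : a ≠ 0 := by
        rintro rfl
        exact hna W.zero_mem
      have h1 : W.valuation a⁻¹ < 1 := by
        rw [map_inv₀]
        have : 1 < W.valuation a := by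
          rw [← not_le, W.valuation_le_one_iff]
          exact hna
        exact inv_lt_one_of_one_lt₀ this
      have hmem : a⁻¹ ∈ W := (W.valuation_le_one_iff _).1 h1.le
      have hR : algebraMap A U a⁻¹ ∈ R0 := Subring.subset_closure (Or.inl ⟨_, hmem, rfl⟩)
      have hJ : algebraMap A U a⁻¹ ∈ wx_J A B U W :=
        ⟨Unit, inferInstance, fun _ => a⁻¹, fun _ => 1, fun _ => h1, by simp⟩
      have h2 : algebraMap A U a⁻¹ ∈ W'.nonunits := hW2 ⟨⟨_, hR⟩, hJ, rfl⟩
      rw [ValuationSubring.mem_nonunits_iff] at h2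
      have h3 := (W'.valuation_le_one_iff _).2 ha
      have h4 : W'.valuation (algebraMap A U a * algebraMap A U a⁻¹) < 1 := by
        rw [map_mul]
        exact lt_of_le_of_lt (mul_le_of_le_one_left' h3) h2
      rw [← map_mul, mul_inv_cancel₀ ha0, map_one, map_one] at h4
      exact lt_irrefl _ h4
    · intro ha
      exact hW1 (Subring.subset_closure (Or.inl ⟨_, ha, rfl⟩))
  · intro b
    exact hW1 (Subring.subset_closure (Or.inr ⟨b, rfl⟩))

end Pool.Agent.Helper1.BSX
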